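import Pool.Agent.H684.EV.WordDatum
import Pool.Graph.R_seed8.R282.EV.Orbs

/-! The function on words, with `240` types, as a datum on `2640` points. -/

set_option autoImplicit false

namespace Pool.Agent.H684.EV

open Pool.Agent.H571R3 Pool.Agent.H571R3.AUT885 Pool.Agent.R282.EV
open Pool.Agent.H128R2.Evas (DT)

/-- The position of the centre `c` among the thirteen points and of the point `p`. -/
theorem e13_val : (∀ p : Fin 5, (e13 (Sum.inl p)).val = p.val) ∧
    ∀ c : Fin 6, (e13 (Sum.inr (Sum.inl c))).val = 5 + c.val := by decide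

theorem sep : ∀ c c' : Fin 6, c ≠ c' → ∃ p q : Fin 5,
    (∃ m ∈ facets, m.testBit p.val = true ∧ m.testBit q.val = true ∧
      m.testBit (5 + c.val) = true) ∧
    ∀ m ∈ facets, ¬ (m.testBit p.val = true ∧ m.testBit q.val = true ∧
      m.testBit (5 + c'.val) = true) := by
  decide +kernel

theorem mem_KK3 (p q : Fin 5) (c : Fin 6) :
    ({e13 (Sum.inl p), e13 (Sum.inl q), e13 (Sum.inr (Sum.inl c))} : Finset (Fin 13)) ∈ KK ↔
      ∃ m ∈ facets, m.testBit p.val = true ∧ m.testBit q.val = true ∧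
        m.testBit (5 + c.val) = true := by
  show (∃ m ∈ facets, ∀ i ∈ ({e13 (Sum.inl p), e13 (Sum.inl q), e13 (Sum.inr (Sum.inl c))} :
    Finset (Fin 13)), m.testBit i.val = true) ↔ _
  refine exists_congr fun m => and_congr_right fun _ => ?_
  simp only [Finset.mem_insert, Finset.mem_singleton, forall_eq_or_imp, forall_eq, e13_val.1,
    e13_val.2]

theorem J_apply (x : P3) (y : Fin 5 ⊕ (Fin 6 ⊕ Fin 2)) :
    J x (e13 y) = e13 (Equiv.sumCongr x.1 (Equiv.sumCongr x.2.1 x.2.2) y) := by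
  show e13 (Equiv.sumCongr x.1 (Equiv.sumCongr x.2.1 x.2.2) (e13.symm (e13 y))) = _
  rw [Equiv.symm_apply_apply]

/-- A symmetry of the complex which fixes the five points fixes the six centres. -/
theorem G0_mid (x : P3) (hx : Inv (J x)) (h1 : x.1 = 1) : x.2.1 = 1 := by
  apply Equiv.ext
  intro c
  show x.2.1 c = c
  by_contra hne
  obtain ⟨p, q, h2, h3⟩ := sep c (x.2.1 c) (fun h => hne h.symm)
  have h4 := (mem_KK3 p q c).2 h2
  have h5 := (hx _).2 h4
  have e : ({e13 (Sum.inl p), e13 (Sum.inl q), e13 (Sum.inr (Sum.inl c))} :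
      Finset (Fin 13)).map (J x).toEmbedding =
      {e13 (Sum.inl p), e13 (Sum.inl q), e13 (Sum.inr (Sum.inl (x.2.1 c)))} := by
    rw [Finset.map_insert, Finset.map_insert, Finset.map_singleton]
    show ({J x (e13 _), J x (e13 _), J x (e13 _)} : Finset (Fin 13)) = _
    rw [J_apply, J_apply, J_apply, h1]
    rfl
  rw [e] at h5
  obtain ⟨m, hm, h6⟩ := (mem_KK3 p q _).1 h5
  exact h3 m hm h6

/-- The faithful action on `5 + 2` points. -/
def r7 : G0 →* Equiv.Perm (Fin 5 ⊕ Fin 2) :=
  (Equiv.Perm.sumCongrHom (Fin 5) (Fin 2)).comp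
    (((MonoidHom.id (Equiv.Perm (Fin 5))).prodMap
      (MonoidHom.snd (Equiv.Perm (Fin 6)) (Equiv.Perm (Fin 2)))).comp G0.subtype)

theorem r7_inj : Function.Injective r7 := by
  rw [injective_iff_map_eq_one]
  rintro ⟨x, hx⟩ h
  have h2 : ((x.1, x.2.2) : Equiv.Perm (Fin 5) × Equiv.Perm (Fin 2)) = 1 := by
    apply Equiv.Perm.sumCongrHom_injective
    rw [map_one]
    exact h
  have h3 := Prod.mk.inj h2
  apply Subtype.ext
  show x = 1
  exact Prod.ext h3.1 (Prod.ext (G0_mid x hx h3.1) h3.2)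

/-- The group acting on the vertices. -/
abbrev DD : Type := G0 × Multiplicative (ZMod 2)

/-- Its faithful action on nine points. -/
def r9 : DD →* Equiv.Perm ((Fin 5 ⊕ Fin 2) ⊕ Multiplicative (ZMod 2)) :=
  (Equiv.Perm.sumCongrHom _ _).comp
    (r7.prodMap (MulAction.toPermHom (Multiplicative (ZMod 2)) (Multiplicative (ZMod 2))))

theorem r9_inj : Function.Injective r9 := by
  unfold r9
  rw [MonoidHom.coe_comp]
  refine Equiv.Perm.sumCongrHom_injective.comp ?_
  rintro ⟨a, a'⟩ ⟨b, b'⟩ hab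
  have e := Prod.mk.inj (show (r7 a, MulAction.toPermHom (Multiplicative (ZMod 2)) _ a') =
    (r7 b, MulAction.toPermHom (Multiplicative (ZMod 2)) _ b') from hab)
  have e2 : a' = b' := MulAction.toPerm_injective e.2
  rw [r7_inj e.1, e2]

/-- The action on the vertices and ghosts. -/
noncomputable def aa (n : ℕ) : DD →* Equiv.Perm (PP KK ⊕ Fin n) :=
  (Equiv.Perm.sumCongrHom (PP KK) (Fin n)).comp (Psi.prod 1)

theorem aa_inl (n : ℕ) (g : DD) (x : PP KK) : aa n g (Sum.inl x) = Sum.inl (Psi g x) := rfl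

theorem aa_inr (n : ℕ) (g : DD) (j : Fin n) : aa n g (Sum.inr j) = Sum.inr j := rfl

theorem base (K e : ℕ) [NeZero K] (hK : Nat.card Q ≤ K) (he : K ∣ 30 ^ e) :
    ∃ m : ℕ, m ∣ 30 ^ (e + 10 * K) ∧ Datum (11 * K) (m - 1) m := by
  classical
  have : Finite Q := Quotient.finite _
  have hcard : Nat.card (Q ⊕ Fin (K - Nat.card Q)) = Nat.card (ZMod K) := by
    rw [Nat.card_sum, Nat.card_fin, Nat.card_zmod]
    omega
  have : Finite (ZMod K) := inferInstance
  obtain ⟨ε⟩ : Nonempty (Q ⊕ Fin (K - Nat.card Q) ≃ ZMod K) := Finite.card_eq.1 hcard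
  let mq : PP KK → Q := fun x => Quotient.mk'' x
  let typ : PP KK ⊕ Fin (K - Nat.card Q) → ZMod K := Sum.elim (fun x => ε (Sum.inl (mq x)))
    (fun j => ε (Sum.inr j))
  let S : Set (PP KK ⊕ Fin (K - Nat.card Q)) → Prop := Gst (fun A => A.Pairwise (cc KK))
  have hsurj : Function.Surjective typ := by
    intro i
    rcases hi : ε.symm i with q | j
    · obtain ⟨x, hx⟩ := Quotient.exists_rep q
      refine ⟨Sum.inl x, ?_⟩
      show ε (Sum.inl (mq x)) = i
      have : mq x = q := hx
      rw [this, ← hi, Equiv.apply_symm_apply]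
    · refine ⟨Sum.inr j, ?_⟩
      show ε (Sum.inr j) = i
      rw [← hi, Equiv.apply_symm_apply]
  have hdown : ∀ A B : Set (PP KK ⊕ Fin (K - Nat.card Q)), A ⊆ B → S B → S A := fun A B hAB hB =>
    ⟨hB.1.mono (Set.preimage_mono hAB), fun j hj => hB.2 j (hAB hj)⟩
  have hempty : S ∅ := ⟨by simp, fun j hj => hj⟩
  have hfib : ∀ i, ¬ S {v | typ v = i} := by
    intro i hi
    obtain ⟨v, hv⟩ := hsurj i
    rcases v with x | j
    · obtain ⟨g, hg, hne, hnc⟩ := pp_auto' x
      have h1 : typ (Sum.inl (g x)) = i := by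
        rw [← hv]
        exact congrArg (fun q => ε (Sum.inl q)) ((mk_eq_iff (g x) x).2 ⟨g, hg, rfl⟩)
      exact hnc (hi.1 (show g x ∈ Sum.inl ⁻¹' {v | typ v = i} from h1)
        (show x ∈ Sum.inl ⁻¹' {v | typ v = i} from hv) hne)
    · exact hi.2 j hv
  have hPsi : ∀ g : DD, Psi g ∈ H := fun g => ⟨g, rfl⟩
  have hat : ∀ (g : DD) x, typ (aa (K - Nat.card Q) g x) = typ x := by
    rintro g (z | j)
    · rw [aa_inl]
      exact congrArg (fun q => ε (Sum.inl q)) ((mk_eq_iff (Psi g z) z).2 ⟨Psi g, hPsi g, rfl⟩)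
    · rw [aa_inr]
  have haS : ∀ (g : DD) (A : Set (PP KK ⊕ Fin (K - Nat.card Q))),
      S (aa (K - Nat.card Q) g '' A) ↔ S A := by
    intro g A
    have e1 : Sum.inl ⁻¹' ((aa (K - Nat.card Q) g) '' A) = Psi g '' (Sum.inl ⁻¹' A) := by
      ext z
      constructor
      · rintro ⟨w, hw, hwz⟩
        rcases w with w | w
        · exact ⟨w, hw, Sum.inl_injective hwz⟩
        · rw [aa_inr] at hwz
          exact absurd hwz (by simp)
      · rintro ⟨w, hw, rfl⟩
        exact ⟨Sum.inl w, hw, rfl⟩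
    have e2 : ∀ j : Fin (K - Nat.card Q), (Sum.inr j ∈ (aa (K - Nat.card Q) g) '' A) ↔
        Sum.inr j ∈ A := by
      intro j
      constructor
      · rintro ⟨w, hw, hwz⟩
        rcases w with w | w
        · rw [aa_inl] at hwz
          exact absurd hwz (by simp)
        · have : w = j := Sum.inr_injective hwz
          exact this ▸ hw
      · intro hj
        exact ⟨Sum.inr j, hj, rfl⟩
    have e3 := pairwise_image (Psi g) (hPsi g) (Sum.inl ⁻¹' A)
    rw [← e1] at e3
    exact and_congr e3 (forall_congr' fun j => not_congr (e2 j))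
  have htr : ∀ u v, typ u = typ v → ∃ g : DD, aa (K - Nat.card Q) g u = v := by
    intro u v huv
    rcases u with x | j <;> rcases v with y | j'
    · have h1 : mq y = mq x := (Sum.inl_injective (ε.injective huv)).symm
      obtain ⟨g, ⟨d, hd⟩, hgx⟩ := (mk_eq_iff y x).1 h1
      refine ⟨d, ?_⟩
      rw [aa_inl, hd, hgx]
    · exact absurd (ε.injective huv) (by simp)
    · exact absurd (ε.injective huv) (by simp)
    · have h1 : j = j' := Sum.inr_injective (ε.injective huv)
      subst h1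
      exact ⟨1, rfl⟩
  have hwin : Win S ∅ ∅ := by
    have h1 : Win (fun A : Set (PP KK) => A.Pairwise (cc KK)) ∅ ∅ :=
      nep_win (cc KK) (Asm.cc_symm KK) (nep_glued (by norm_num) KK Asm.KK_down coll_KK)
    have h2 := win_gst (D := Fin (K - Nat.card Q)) h1
    rwa [Set.image_empty] at h2
  have hmain := word_datum typ (aa (K - Nat.card Q)) S hsurj hdown hempty hfib hat haS htr r9
    r9_inj hwin
  have h11 : Fintype.card ((Fin 5 ⊕ Fin 2) ⊕ Multiplicative (ZMod 2)) + 2 = 11 := rfl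
  rw [h11] at hmain
  refine ⟨_, ?_, hmain⟩
  rw [card_word, pow_add]
  refine Nat.mul_dvd_mul he ?_
  have h8 : ∏ i : ZMod K, (2 * Nat.card {v // typ v = i}) ∣ ∏ _i : ZMod K, 30 ^ 10 := by
    refine Finset.prod_dvd_prod_of_dvd _ _ fun i _ => ?_
    refine (Nat.mul_dvd_mul (dvd_refl 2) ?_).trans (show 2 * 345600 ∣ 30 ^ 10 by norm_num)
    obtain ⟨v, hv⟩ := hsurj i
    rcases v with x | j
    · have e : Nat.card {v // typ v = i} = (MulAction.orbit H x).ncard := by
        rw [← Nat.card_coe_set_eq]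
        refine (Nat.card_congr (Equiv.ofBijective (fun y : MulAction.orbit H x =>
          (⟨Sum.inl y.1, ?_⟩ : {v // typ v = i})) ⟨?_, ?_⟩)).symm
        · obtain ⟨y, ⟨g, hg⟩⟩ := y
          rw [← hv]
          exact congrArg (fun q => ε (Sum.inl q)) ((mk_eq_iff y x).2 ⟨g.1, g.2, hg⟩)
        · intro y z hyz
          have := congrArg Subtype.val hyz
          exact Subtype.ext (Sum.inl_injective this)
        · rintro ⟨v, hv'⟩
          rcases v with y | j
          · have h6 : mq y = mq x := Sum.inl_injective (ε.injective (hv'.trans hv.symm))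
            obtain ⟨g, hg, hgx⟩ := (mk_eq_iff y x).1 h6
            exact ⟨⟨y, ⟨⟨g, hg⟩, hgx⟩⟩, rfl⟩
          · exact absurd (ε.injective (hv'.trans hv.symm)) (by simp)
      rw [e]
      exact orbit_dvd x
    · have e : Nat.card {v // typ v = i} = 1 := by
        rw [Nat.card_eq_one_iff_unique]
        refine ⟨⟨?_⟩, ⟨⟨Sum.inr j, hv⟩⟩⟩
        rintro ⟨v, hv1⟩ ⟨w, hw1⟩
        have hx : ∀ v, typ v = i → v = Sum.inr j := by
          intro v hv1
          rcases v with y | j'
          · exact absurd (ε.injective (hv1.trans hv.symm)) (by simp)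
          · have : j' = j := Sum.inr_injective (ε.injective (hv1.trans hv.symm))
            rw [this]
        exact Subtype.ext ((hx v hv1).trans (hx w hw1).symm)
      rw [e]
      exact one_dvd _
  rwa [Finset.prod_const, Finset.card_univ, ZMod.card, ← pow_mul] at h8

theorem base_datum : ∃ m : ℕ, m ∣ 30 ^ 2404 ∧ Datum 2640 (m - 1) m :=
  base 240 4 (card_Q'.trans (by norm_num)) (by norm_num)

end Pool.Agent.H684.EV
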