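import Pool.Agent.H684.EV.Lift

/-! Monotone functions with a transitive symmetry group that embeds into the symmetric group on
`d` points, and the invariant monotone functions of `r`-ary relations which they give. -/

set_option autoImplicit false

namespace Pool.Agent.H684.EV

open Pool.Agent.H128R2.Evas (DT)

/-- There are a finite set of permutations group `Γ` of a set of `d` points, a transitive action
of `Γ` on a finite set `W` and a non-constant monotone function on `W` which is invariant and has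
a decision tree of depth at most `p / q` times the number of variables. -/
def Datum (d p q : ℕ) : Prop :=
  ∃ (Γ : Type) (_ : Group Γ) (_ : Finite Γ) (Δ : Type) (_ : Fintype Δ) (ρ : Γ →* Equiv.Perm Δ)
    (W : Type) (_ : Fintype W) (θ : Γ →* Equiv.Perm W) (f : (W → Bool) → Bool) (T : DT W),
    Function.Injective ρ ∧ Fintype.card Δ = d ∧ Nonempty W ∧ (∀ v w : W, ∃ γ, θ γ v = w) ∧
    Monotone f ∧ f (fun _ => false) = false ∧ f (fun _ => true) = true ∧
    (∀ (γ : Γ) (x : W → Bool), f (x ∘ θ γ) = f x) ∧ (∀ x, T.eval x = f x) ∧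
    T.depth * q ≤ p * Fintype.card W

/-- Products. -/
theorem Datum.mul {d p q d' p' q' : ℕ} (h : Datum d p q) (h' : Datum d' p' q') :
    Datum (d + d') (p * p') (q * q') := by
  obtain ⟨Γ, iΓ, fΓ, Δ, iΔ, ρ, W, iW, θ, f, T, h1, h2, h3, h4, h5, h6, h7, h8, h9, h10⟩ := h
  obtain ⟨Γ', iΓ', fΓ', Δ', iΔ', ρ', W', iW', θ', f', T', h1', h2', h3', h4', h5', h6', h7', h8',
    h9', h10'⟩ := h'
  let θ'' : Γ × Γ' →* Equiv.Perm (W × W') := MonoidHom.mk'
    (fun g => Equiv.prodCongr (θ g.1) (θ' g.2)) (by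
      rintro ⟨a, a'⟩ ⟨b, b'⟩
      apply Equiv.ext
      rintro ⟨w, w'⟩
      show (θ (a * b) w, θ' (a' * b') w') = (θ a (θ b w), θ' a' (θ' b' w'))
      rw [map_mul, map_mul]
      rfl)
  have hθ : ∀ (g : Γ × Γ') (w : W × W'), θ'' g w = (θ g.1 w.1, θ' g.2 w.2) := fun g w => rfl
  refine ⟨Γ × Γ', inferInstance, inferInstance, Δ ⊕ Δ', inferInstance,
    (Equiv.Perm.sumCongrHom Δ Δ').comp (ρ.prodMap ρ'), W × W', inferInstance, θ'',
    fun x => f fun w => f' fun w' => x (w, w'),
    DT.subst (fun w => DT.map (fun w' => (w, w')) T') T, ?_, ?_, ?_, ?_, ?_, ?_, ?_, ?_, ?_, ?_⟩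
  · rw [MonoidHom.coe_comp]
    refine Equiv.Perm.sumCongrHom_injective.comp ?_
    rintro ⟨a, a'⟩ ⟨b, b'⟩ hab
    have e := Prod.mk.inj (show (ρ a, ρ' a') = (ρ b, ρ' b') from hab)
    rw [h1 e.1, h1' e.2]
  · rw [Fintype.card_sum, h2, h2']
  · obtain ⟨w⟩ := h3
    obtain ⟨w'⟩ := h3'
    exact ⟨(w, w')⟩
  · rintro ⟨v, v'⟩ ⟨w, w'⟩
    obtain ⟨a, ha⟩ := h4 v w
    obtain ⟨a', ha'⟩ := h4' v' w'
    exact ⟨(a, a'), by rw [hθ]; exact Prod.ext ha ha'⟩
  · intro x y hxy
    exact h5 fun w => h5' fun w' => hxy (w, w')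
  · show f (fun w => f' fun w' => false) = false
    rw [h6', h6]
  · show f (fun w => f' fun w' => true) = true
    rw [h7', h7]
  · rintro ⟨a, a'⟩ x
    show f (fun w => f' fun w' => x (θ a w, θ' a' w')) = f fun w => f' fun w' => x (w, w')
    rw [← h8 a fun w => f' fun w' => x (w, w')]
    congr 1
    funext w
    exact h8' a' fun w' => x (θ a w, w')
  · intro x
    rw [DT.eval_subst, h9]
    congr 1
    funext w
    rw [DT.eval_map, h9']
  · have hd := DT.depth_subst (fun w => DT.map (fun w' => (w, w')) T') T'.depth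
      (fun w => (DT.depth_map _ _).le) T
    rw [Fintype.card_prod]
    calc (DT.subst (fun w => DT.map (fun w' => (w, w')) T') T).depth * (q * q')
        ≤ (T.depth * T'.depth) * (q * q') := Nat.mul_le_mul_right _ hd
      _ = (T.depth * q) * (T'.depth * q') := by ring
      _ ≤ (p * Fintype.card W) * (p' * Fintype.card W') := Nat.mul_le_mul h10 h10'
      _ = p * p' * (Fintype.card W * Fintype.card W') := by ring

/-- Powers. -/
theorem Datum.pow {d p q : ℕ} (h : Datum d p q) (j : ℕ) (hj : 1 ≤ j) :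
    Datum (d * j) (p ^ j) (q ^ j) := by
  induction j, hj using Nat.le_induction with
  | base => simpa using h
  | succ n _ ih =>
    have := ih.mul h
    rwa [← Nat.mul_succ, ← Nat.pow_succ, ← Nat.pow_succ] at this

/-- Relations. -/
theorem Datum.relations {d p q : ℕ} (h : Datum d p q) {r : ℕ} (hr : d ≤ r) {α : Type}
    [Fintype α] [DecidableEq α] (hα : r ≤ Fintype.card α) :
    ∃ (F : ((Fin r ↪ α) → Bool) → Bool) (T : DT (Fin r ↪ α)), Monotone F ∧
      F (fun _ => false) = false ∧ F (fun _ => true) = true ∧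
      (∀ (σ : Equiv.Perm α) (A : (Fin r ↪ α) → Bool),
        F (fun x => A (x.trans σ.toEmbedding)) = F A) ∧
      (∀ A, T.eval A = F A) ∧ T.depth * q ≤ p * Fintype.card (Fin r ↪ α) := by
  classical
  obtain ⟨Γ, iΓ, fΓ, Δ, iΔ, ρ, W, iW, θ, f, T, h1, h2, ⟨w0⟩, h4, h5, h6, h7, h8, h9, h10⟩ := h
  have hΔ : Nonempty (Δ ↪ Fin r) := by
    apply Function.Embedding.nonempty_of_card_le
    rw [h2, Fintype.card_fin]
    exact hr
  obtain ⟨ι⟩ := hΔ
  have hX : Nonempty (Fin r ↪ α) := by
    apply Function.Embedding.nonempty_of_card_le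
    rw [Fintype.card_fin]
    exact hα
  let ρ' : Γ →* Equiv.Perm (Fin r) := (Equiv.Perm.viaEmbeddingHom ι).comp ρ
  have hρ' : Function.Injective ρ' := by
    rw [MonoidHom.coe_comp]
    exact (Equiv.Perm.viaEmbeddingHom_injective ι).comp h1
  letI act : MulAction Γ (Fin r ↪ α) :=
    { smul := fun γ x => (ρ' γ)⁻¹.toEmbedding.trans x
      one_smul := fun x => by
        show (ρ' 1)⁻¹.toEmbedding.trans x = x
        rw [map_one, inv_one]
        ext i
        rfl
      mul_smul := fun a b x => by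
        show (ρ' (a * b))⁻¹.toEmbedding.trans x =
          (ρ' a)⁻¹.toEmbedding.trans ((ρ' b)⁻¹.toEmbedding.trans x)
        rw [map_mul, mul_inv_rev]
        ext i
        rfl }
  have hsm : ∀ (γ : Γ) (x : Fin r ↪ α) (i : Fin r), (γ • x) i = x ((ρ' γ)⁻¹ i) :=
    fun _ _ _ => rfl
  obtain ⟨F, T', g1, g2, g3, g4, g5, g6⟩ := lift θ w0 (X := Fin r ↪ α) (by
    intro x γ hγ
    have e : (ρ' γ)⁻¹ = 1 := by
      apply Equiv.ext
      intro i
      apply x.injective
      rw [← hsm, hγ]
      rfl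
    rw [inv_eq_one] at e
    exact hρ' (e.trans (map_one ρ').symm)) (fun w => h4 w0 w) f h5 h6 h7 h8 T h9
  refine ⟨F, T', g1, g2, g3, ?_, g5, ?_⟩
  · intro σ A
    let τ : Equiv.Perm (Fin r ↪ α) :=
      { toFun := fun x => x.trans σ.toEmbedding
        invFun := fun x => x.trans σ.symm.toEmbedding
        left_inv := fun x => by
          ext i
          show σ.symm (σ (x i)) = x i
          rw [Equiv.symm_apply_apply]
        right_inv := fun x => by
          ext i
          show σ (σ.symm (x i)) = x i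
          rw [Equiv.apply_symm_apply] }
    exact g4 τ (fun γ x => rfl) A
  · have hW : 0 < Fintype.card W := Fintype.card_pos_iff.2 ⟨w0⟩
    refine Nat.le_of_mul_le_mul_right ?_ hW
    calc T'.depth * q * Fintype.card W = (T'.depth * Fintype.card W) * q := by ring
      _ ≤ (T.depth * Fintype.card (Fin r ↪ α)) * q := Nat.mul_le_mul_right _ g6
      _ = (T.depth * q) * Fintype.card (Fin r ↪ α) := by ring
      _ ≤ (p * Fintype.card W) * Fintype.card (Fin r ↪ α) := Nat.mul_le_mul_right _ h10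
      _ = p * Fintype.card (Fin r ↪ α) * Fintype.card W := by ring

end Pool.Agent.H684.EV
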