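import Mathlib
import Pool.Graph.R_seed8.H128R2.Evas.Final
import Pool.Graph.R_seed8.Y825.EV.Many

/-! Transport of a transitive monotone function with symmetry group `Γ` to a set `X` on which `Γ`
acts freely; the new function is invariant under every permutation of `X` which commutes with
`Γ`. -/

set_option autoImplicit false

namespace Pool.Agent.H684.EV

open Pool.Agent.H128R2.Evas (DT)
open Pool.Agent.Y825.EV (orTree eval_orTree depth_orTree)

/-- the tree for the conjunction of the variables in a list -/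
def andTree {V : Type} : List V → DT V
  | [] => .leaf true
  | v :: l => .node v (.leaf false) (andTree l)

theorem eval_andTree {V : Type} (l : List V) (x : V → Bool) :
    (andTree l).eval x = l.all x := by
  induction l with
  | nil => rfl
  | cons v l ih =>
    simp only [andTree, DT.eval, ih, List.all_cons]
    cases x v <;> simp

theorem depth_andTree {V : Type} (l : List V) : (andTree l).depth = l.length := by
  induction l with
  | nil => rfl
  | cons v l ih => simp [andTree, DT.depth, ih]

section lift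

variable {Γ : Type} [Group Γ] {W : Type} (θ : Γ →* Equiv.Perm W) (w0 : W)
  {X : Type} [MulAction Γ X]

open Classical in
/-- The input of `f` read off at `x`. -/
noncomputable def sg (A : X → Bool) (x : X) (w : W) : Bool :=
  decide (∃ γ : Γ, θ γ w0 = w ∧ A (γ⁻¹ • x) = true)

theorem sg_iff (A : X → Bool) (x : X) (w : W) :
    sg θ w0 A x w = true ↔ ∃ γ : Γ, θ γ w0 = w ∧ A (γ⁻¹ • x) = true := by
  classical
  unfold sg
  exact decide_eq_true_iff

theorem sg_smul (A : X → Bool) (x : X) (δ : Γ) :
    sg θ w0 A (δ • x) = sg θ w0 A x ∘ θ δ⁻¹ := by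
  funext w
  rw [Bool.eq_iff_iff, Function.comp_apply, sg_iff, sg_iff]
  constructor
  · rintro ⟨γ, rfl, h⟩
    refine ⟨δ⁻¹ * γ, ?_, ?_⟩
    · rw [map_mul]; rfl
    · rw [mul_inv_rev, inv_inv, mul_smul]
      exact h
  · rintro ⟨γ, h1, h⟩
    refine ⟨δ * γ, ?_, ?_⟩
    · rw [map_mul, Equiv.Perm.mul_apply, h1, ← Equiv.Perm.mul_apply, ← map_mul, mul_inv_cancel,
        map_one, Equiv.Perm.one_apply]
    · rw [mul_inv_rev, mul_smul, inv_smul_smul]
      exact h

theorem sg_comm (A : X → Bool) (τ : Equiv.Perm X) (hτ : ∀ (γ : Γ) (x : X), τ (γ • x) = γ • τ x)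
    (x : X) : sg θ w0 (A ∘ τ) x = sg θ w0 A (τ x) := by
  funext w
  rw [Bool.eq_iff_iff, sg_iff, sg_iff]
  refine exists_congr fun γ => and_congr_right fun _ => ?_
  rw [Function.comp_apply, hτ]

theorem sg_mono {A B : X → Bool} (h : A ≤ B) (x : X) : sg θ w0 A x ≤ sg θ w0 B x := by
  intro w
  rw [Bool.le_iff_imp, sg_iff, sg_iff]
  rintro ⟨γ, h1, h2⟩
  refine ⟨γ, h1, ?_⟩
  have := h (γ⁻¹ • x)
  rw [h2] at this
  exact top_le_iff.mp this

open Classical in
/-- The number of group elements moving `w0` to `w`. -/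
noncomputable def fib [Fintype Γ] (w : W) : Finset Γ := Finset.univ.filter fun γ => θ γ w0 = w

theorem mem_fib [Fintype Γ] (w : W) (γ : Γ) : γ ∈ fib θ w0 w ↔ θ γ w0 = w := by
  simp [fib]

theorem card_fib [Fintype Γ] (htr : ∀ w, ∃ γ : Γ, θ γ w0 = w) (w : W) :
    (fib θ w0 w).card = (fib θ w0 w0).card := by
  classical
  obtain ⟨g, hg⟩ := htr w
  symm
  refine Finset.card_bij (fun γ _ => g * γ) ?_ ?_ ?_
  · intro γ h
    rw [mem_fib] at h ⊢
    rw [map_mul, Equiv.Perm.mul_apply, h, hg]
  · intro a _ b _ h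
    exact mul_left_cancel h
  · intro b hb
    refine ⟨g⁻¹ * b, ?_, by simp⟩
    rw [mem_fib] at hb ⊢
    rw [map_mul, Equiv.Perm.mul_apply, hb, ← hg, ← Equiv.Perm.mul_apply, ← map_mul,
      inv_mul_cancel, map_one, Equiv.Perm.one_apply]

theorem card_fib_mul [Fintype Γ] [Fintype W] (htr : ∀ w, ∃ γ : Γ, θ γ w0 = w) :
    Fintype.card W * (fib θ w0 w0).card = Fintype.card Γ := by
  classical
  have h := Finset.card_eq_sum_card_fiberwise (s := (Finset.univ : Finset Γ))
    (t := (Finset.univ : Finset W)) (f := fun γ => θ γ w0) (fun _ _ => Finset.mem_coe.2 (Finset.mem_univ _))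
  rw [Finset.card_univ] at h
  rw [h, Finset.sum_congr rfl (fun w _ => ?_), Finset.sum_const, Finset.card_univ, smul_eq_mul]
  rw [← card_fib θ w0 htr w]
  rfl

/-- Transport. -/
theorem lift [Finite Γ] [Fintype W] [Fintype X] [Nonempty X]
    (hfree : ∀ (x : X) (γ : Γ), γ • x = x → γ = 1)
    (htr : ∀ w, ∃ γ : Γ, θ γ w0 = w) (f : (W → Bool) → Bool) (hm : Monotone f)
    (h0 : f (fun _ => false) = false) (h1 : f (fun _ => true) = true)
    (hinv : ∀ (γ : Γ) (x : W → Bool), f (x ∘ θ γ) = f x) (T : DT W) (hT : ∀ x, T.eval x = f x) :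
    ∃ (F : (X → Bool) → Bool) (T' : DT X), Monotone F ∧ F (fun _ => false) = false ∧
      F (fun _ => true) = true ∧
      (∀ τ : Equiv.Perm X, (∀ (γ : Γ) (x : X), τ (γ • x) = γ • τ x) → ∀ A, F (A ∘ τ) = F A) ∧
      (∀ A, T'.eval A = F A) ∧ T'.depth * Fintype.card W ≤ T.depth * Fintype.card X := by
  classical
  have : Fintype Γ := Fintype.ofFinite Γ
  let F : (X → Bool) → Bool := fun A => decide (∀ x, f (sg θ w0 A x) = true)
  have hF : ∀ A, F A = true ↔ ∀ x, f (sg θ w0 A x) = true := fun A => decide_eq_true_iff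
  -- the tree
  let Ω := Quotient (MulAction.orbitRel Γ X)
  have : Fintype Ω := Fintype.ofFinite Ω
  have hstab : ∀ b : X, MulAction.stabilizer Γ b = ⊥ := by
    intro b
    rw [Subgroup.eq_bot_iff_forall]
    intro γ hγ
    exact hfree b γ hγ
  have hcardX : Fintype.card X = Fintype.card Ω * Fintype.card Γ := by
    rw [Fintype.card_congr (MulAction.selfEquivOrbitsQuotientProd (G := Γ) (X := X) hstab),
      Fintype.card_prod]
  let reps : List X := (Finset.univ : Finset Ω).toList.map Quotient.out
  have hreps : ∀ x : X, ∃ y ∈ reps, ∃ γ : Γ, x = γ • y := by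
    intro x
    refine ⟨(Quotient.mk'' x : Ω).out, ?_, ?_⟩
    · exact List.mem_map.2 ⟨Quotient.mk'' x, by simp, rfl⟩
    · have h2 : (MulAction.orbitRel Γ X) (Quotient.mk'' x : Ω).out x := Quotient.exact (Quotient.out_eq _)
      have h3 : (MulAction.orbitRel Γ X) x (Quotient.mk'' x : Ω).out :=
        (MulAction.orbitRel Γ X).symm h2
      rw [MulAction.orbitRel_apply] at h3
      obtain ⟨γ, hγ⟩ := h3
      exact ⟨γ, hγ.symm⟩
  let q : X → W → DT X := fun x w => orTree ((fib θ w0 w).toList.map fun γ => γ⁻¹ • x)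
  have hq : ∀ A x w, (q x w).eval A = sg θ w0 A x w := by
    intro A x w
    show (orTree _).eval A = _
    rw [eval_orTree, Bool.eq_iff_iff, sg_iff, List.any_eq_true]
    constructor
    · rintro ⟨y, hy, hA⟩
      rw [List.mem_map] at hy
      obtain ⟨γ, hγ, rfl⟩ := hy
      exact ⟨γ, (mem_fib θ w0 w γ).1 (Finset.mem_toList.1 hγ), hA⟩
    · rintro ⟨γ, hγ, hA⟩
      exact ⟨γ⁻¹ • x, List.mem_map.2 ⟨γ, Finset.mem_toList.2 ((mem_fib θ w0 w γ).2 hγ), rfl⟩, hA⟩
  have hqd : ∀ x w, (q x w).depth = (fib θ w0 w0).card := by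
    intro x w
    show (orTree _).depth = _
    rw [depth_orTree, List.length_map, Finset.length_toList, card_fib θ w0 htr]
  let T' : DT X := DT.subst (fun x => DT.subst (q x) T) (andTree reps)
  refine ⟨F, T', ?_, ?_, ?_, ?_, ?_, ?_⟩
  · intro A B h
    rw [Bool.le_iff_imp, hF, hF]
    intro hA x
    have h2 := hm (sg_mono θ w0 h x)
    rw [hA x] at h2
    exact top_le_iff.mp h2
  · rw [← Bool.not_eq_true, hF]
    intro h
    obtain ⟨x⟩ := ‹Nonempty X›
    have e : sg θ w0 (fun _ : X => false) x = fun _ => false := by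
      funext w
      rw [← Bool.not_eq_true, sg_iff]
      rintro ⟨γ, -, h⟩
      exact Bool.noConfusion h
    have h2 := h x
    rw [e, h0] at h2
    exact Bool.noConfusion h2
  · rw [hF]
    intro x
    have e : sg θ w0 (fun _ : X => true) x = fun _ => true := by
      funext w
      rw [sg_iff]
      obtain ⟨γ, hγ⟩ := htr w
      exact ⟨γ, hγ, rfl⟩
    rw [e, h1]
  · intro τ hτ A
    rw [Bool.eq_iff_iff, hF, hF]
    constructor
    · intro h x
      have := h (τ.symm x)
      rwa [sg_comm θ w0 A τ hτ, τ.apply_symm_apply] at this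
    · intro h x
      rw [sg_comm θ w0 A τ hτ]
      exact h _
  · intro A
    show (DT.subst (fun x => DT.subst (q x) T) (andTree reps)).eval A = F A
    rw [DT.eval_subst, eval_andTree, Bool.eq_iff_iff, hF, List.all_eq_true]
    have e : ∀ x, (DT.subst (q x) T).eval A = f (sg θ w0 A x) := by
      intro x
      rw [DT.eval_subst, hT]
      congr 1
      funext w
      exact hq A x w
    constructor
    · intro h x
      obtain ⟨y, hy, γ, rfl⟩ := hreps x
      have h2 := h y hy
      rw [e] at h2
      rw [sg_smul, hinv]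
      exact h2
    · intro h y _
      rw [e]
      exact h y
  · have hd : T'.depth ≤ reps.length * (T.depth * (fib θ w0 w0).card) := by
      refine (DT.depth_subst _ (T.depth * (fib θ w0 w0).card) (fun x => ?_) _).trans ?_
      · exact DT.depth_subst _ _ (fun w => (hqd x w).le) _
      · rw [depth_andTree]
    have hl : reps.length = Fintype.card Ω := by
      show ((Finset.univ : Finset Ω).toList.map Quotient.out).length = _
      rw [List.length_map, Finset.length_toList, Finset.card_univ]
    rw [hl] at hd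
    have h3 := card_fib_mul θ w0 htr
    calc T'.depth * Fintype.card W
        ≤ (Fintype.card Ω * (T.depth * (fib θ w0 w0).card)) * Fintype.card W :=
          Nat.mul_le_mul_right _ hd
      _ = T.depth * (Fintype.card Ω * (Fintype.card W * (fib θ w0 w0).card)) := by ring
      _ = T.depth * Fintype.card X := by rw [h3, hcardX]

end lift

end Pool.Agent.H684.EV
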