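import Pool.Agent.H684.EV.Datum
import Pool.Graph.R_seed8.R282.EV.Wrd

/-! The function on words has a transitive group of symmetries which acts faithfully on few
points. -/

set_option autoImplicit false

namespace Pool.Agent.H684.EV

open Pool.Agent.H571R3 Pool.Agent.R282.EV
open Pool.Agent.H128R2.Evas (DT)

section words

variable {V : Type} {k : ℕ} (typ : V → ZMod k) {D : Type} [Group D] (a : D →* Equiv.Perm V)

/-- The group. -/
abbrev Gam (D : Type) (k : ℕ) : Type :=
  RegularWreathProduct (D × Multiplicative (ZMod 2)) (Multiplicative (ZMod k))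

/-- The letter of the moved word at the coordinate `c`. -/
noncomputable def mv (γ : Gam D k) (w : ZMod k → V × Bool) (c : ZMod k) : V × Bool :=
  (a (γ.left (Multiplicative.ofAdd c)).1
      (w (Multiplicative.toAdd (γ.right⁻¹ * Multiplicative.ofAdd c))).1,
    xor (w (Multiplicative.toAdd (γ.right⁻¹ * Multiplicative.ofAdd c))).2
      (bit (γ.left (Multiplicative.ofAdd c)).2))

theorem mv_one (w : ZMod k → V × Bool) : mv a (1 : Gam D k) w = w := by
  funext c
  have e : Multiplicative.toAdd ((1 : Gam D k).right⁻¹ * Multiplicative.ofAdd c) = c := by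
    rw [RegularWreathProduct.one_right, inv_one, one_mul, toAdd_ofAdd]
  have hb : bit 1 = false := by decide
  unfold mv
  rw [e, RegularWreathProduct.one_left]
  apply Prod.ext
  · show a 1 (w c).1 = (w c).1
    rw [map_one]
    rfl
  · show xor (w c).2 (bit 1) = (w c).2
    rw [hb, Bool.xor_false]

theorem mv_mul (γ δ : Gam D k) (w : ZMod k → V × Bool) : mv a (γ * δ) w = mv a γ (mv a δ w) := by
  funext c
  have e : Multiplicative.toAdd ((γ * δ).right⁻¹ * Multiplicative.ofAdd c) =
      Multiplicative.toAdd (δ.right⁻¹ * Multiplicative.ofAdd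
        (Multiplicative.toAdd (γ.right⁻¹ * Multiplicative.ofAdd c))) := by
    rw [ofAdd_toAdd, RegularWreathProduct.mul_right, mul_inv_rev, mul_assoc]
  unfold mv
  rw [e, RegularWreathProduct.mul_left]
  apply Prod.ext
  · show a ((γ.left (Multiplicative.ofAdd c)).1 * (δ.left (γ.right⁻¹ * Multiplicative.ofAdd c)).1)
      _ = a _ (a _ _)
    rw [map_mul]
    rfl
  · show xor _ (bit ((γ.left (Multiplicative.ofAdd c)).2 *
      (δ.left (γ.right⁻¹ * Multiplicative.ofAdd c)).2)) = xor (xor _ _) _
    rw [bit_mul, Bool.xor_assoc, Bool.xor_comm (bit (γ.left (Multiplicative.ofAdd c)).2)]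
    rfl

/-- The action on words. -/
noncomputable def wact (hat : ∀ g x, typ (a g x) = typ x) : MulAction (Gam D k) (Word typ) where
  smul γ w := ⟨mv a γ w.1, fun c => by
    have h : ∀ c, typ (mv a γ w.1 c).1 =
        Multiplicative.toAdd (γ.right⁻¹ * Multiplicative.ofAdd c) + typ (w.1 0).1 := by
      intro c
      show typ (a _ _) = _
      rw [hat, w.2]
    rw [h, h, toAdd_mul, toAdd_mul, toAdd_ofAdd, toAdd_ofAdd]
    ring⟩
  one_smul w := Subtype.ext (mv_one a w.1)
  mul_smul γ δ w := Subtype.ext (mv_mul a γ δ w.1)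

/-- The homomorphism to the permutations of the words. -/
noncomputable def wth (hat : ∀ g x, typ (a g x) = typ x) : Gam D k →* Equiv.Perm (Word typ) :=
  @MulAction.toPermHom (Gam D k) (Word typ) _ (wact typ a hat)

theorem wth_val (hat : ∀ g x, typ (a g x) = typ x) (γ : Gam D k) (w : Word typ) :
    (wth typ a hat γ w).1 = mv a γ w.1 := rfl

theorem missing_wth (hat : ∀ g x, typ (a g x) = typ x) (γ : Gam D k) (X : Set (Word typ))
    (c : ZMod k) : missing typ (wth typ a hat γ '' X) c =
      a (γ.left (Multiplicative.ofAdd c)).1 ''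
        missing typ X (Multiplicative.toAdd (γ.right⁻¹ * Multiplicative.ofAdd c)) := by
  ext v
  constructor
  · rintro ⟨b, hb⟩
    refine ⟨(a (γ.left (Multiplicative.ofAdd c)).1).symm v,
      ⟨xor b (bit (γ.left (Multiplicative.ofAdd c)).2), ?_⟩, Equiv.apply_symm_apply _ _⟩
    intro w hw he
    refine hb _ ⟨w, hw, rfl⟩ ?_
    rw [wth_val]
    unfold mv
    rw [he]
    simp
  · rintro ⟨u, ⟨b, hb⟩, rfl⟩
    refine ⟨xor b (bit (γ.left (Multiplicative.ofAdd c)).2), ?_⟩
    rintro _ ⟨w, hw, rfl⟩ he
    refine hb w hw ?_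
    rw [wth_val] at he
    unfold mv at he
    rw [Prod.mk.injEq] at he
    apply Prod.ext
    · exact (a (γ.left (Multiplicative.ofAdd c)).1).injective he.1
    · have := congrArg (fun x => xor x (bit (γ.left (Multiplicative.ofAdd c)).2)) he.2
      simpa using this

theorem bigF_wth (hat : ∀ g x, typ (a g x) = typ x) (S : Set V → Prop)
    (haS : ∀ g A, S (a g '' A) ↔ S A) (γ : Gam D k) (X : Set (Word typ)) :
    BigF typ S (wth typ a hat γ '' X) ↔ BigF typ S X := by
  constructor
  · rintro ⟨c, hc⟩
    rw [missing_wth, haS] at hc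
    exact ⟨_, hc⟩
  · rintro ⟨c, hc⟩
    refine ⟨Multiplicative.toAdd (γ.right * Multiplicative.ofAdd c), ?_⟩
    rw [missing_wth, haS, ofAdd_toAdd, inv_mul_cancel_left, toAdd_ofAdd]
    exact hc

theorem wth_trans (hat : ∀ g x, typ (a g x) = typ x) (htr : ∀ u v, typ u = typ v → ∃ g, a g u = v)
    (w w' : Word typ) : ∃ γ : Gam D k, wth typ a hat γ w = w' := by
  let t : Multiplicative (ZMod k) := Multiplicative.ofAdd (typ (w.1 0).1 - typ (w'.1 0).1)
  have hty : ∀ c : ZMod k, typ (w.1 (Multiplicative.toAdd (t⁻¹ * Multiplicative.ofAdd c))).1 =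
      typ (w'.1 c).1 := by
    intro c
    rw [w.2, w'.2 c, toAdd_mul, toAdd_inv, toAdd_ofAdd, toAdd_ofAdd]
    ring
  have hb : ∀ b : Bool, ∃ z : Multiplicative (ZMod 2), bit z = b := by
    intro b
    cases b
    · exact ⟨Multiplicative.ofAdd 0, by decide⟩
    · exact ⟨Multiplicative.ofAdd 1, by decide⟩
  choose g hg using fun c => htr _ _ (hty c)
  choose z hz using fun c : ZMod k =>
    hb (xor (w.1 (Multiplicative.toAdd (t⁻¹ * Multiplicative.ofAdd c))).2 (w'.1 c).2)
  refine ⟨⟨fun c => (g (Multiplicative.toAdd c), z (Multiplicative.toAdd c)), t⟩, ?_⟩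
  apply Subtype.ext
  funext c
  apply Prod.ext
  · exact hg c
  · show xor (w.1 (Multiplicative.toAdd (t⁻¹ * Multiplicative.ofAdd c))).2 (bit (z c)) = _
    rw [hz, ← Bool.xor_assoc, Bool.xor_self, Bool.false_xor]

theorem word_datum [Finite V] [NeZero k] (S : Set V → Prop)
    (hsurj : Function.Surjective typ) (hdown : ∀ A B : Set V, A ⊆ B → S B → S A)
    (hempty : S ∅) (hfib : ∀ i, ¬ S {v | typ v = i}) [Finite D]
    (hat : ∀ g x, typ (a g x) = typ x) (haS : ∀ g A, S (a g '' A) ↔ S A)
    (htr : ∀ u v, typ u = typ v → ∃ g, a g u = v) {Λ : Type} [Fintype Λ]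
    (ρ : D →* Equiv.Perm Λ) (hρ : Function.Injective ρ) (hwin : Win S ∅ ∅) :
    Datum ((Fintype.card Λ + 2) * k) (Nat.card (Word typ) - 1) (Nat.card (Word typ)) := by
  classical
  have hred := reduction typ S hsurj hdown hfib hwin
  have : Finite (Word typ) := by unfold Word; infer_instance
  have : Fintype (Word typ) := Fintype.ofFinite _
  obtain ⟨t, ht, hdep⟩ := win_tree (BigF typ S) hred
  -- the faithful action on points
  let M2 := Multiplicative (ZMod 2)
  let ρ2 : D × M2 →* Equiv.Perm (Λ ⊕ M2) :=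
    (Equiv.Perm.sumCongrHom Λ M2).comp (ρ.prodMap (MulAction.toPermHom M2 M2))
  have hρ2 : Function.Injective ρ2 := by
    rw [MonoidHom.coe_comp]
    refine Equiv.Perm.sumCongrHom_injective.comp ?_
    rintro ⟨a, a'⟩ ⟨b, b'⟩ hab
    have e := Prod.mk.inj (show (ρ a, MulAction.toPermHom M2 M2 a') =
      (ρ b, MulAction.toPermHom M2 M2 b') from hab)
    have e2 : a' = b' := MulAction.toPerm_injective e.2
    rw [hρ e.1, e2]
  let act2 : MulAction (D × M2) (Λ ⊕ M2) := MulAction.compHom _ ρ2
  have hfaith : FaithfulSMul (D × M2) (Λ ⊕ M2) := ⟨fun h => hρ2 (Equiv.ext h)⟩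
  have : Nonempty (Λ ⊕ M2) := ⟨Sum.inr 1⟩
  have hBF : ∀ x : Word typ → Bool, decide (BigF typ S {w | x w = true}) = true ↔
      BigF typ S {w | x w = true} := fun x => decide_eq_true_iff
  refine ⟨Gam D k, inferInstance, inferInstance, (Λ ⊕ M2) × Multiplicative (ZMod k),
    inferInstance, RegularWreathProduct.toPerm (D × M2) (Multiplicative (ZMod k)) (Λ ⊕ M2),
    Word typ, inferInstance, wth typ a hat, fun x => decide (BigF typ S {w | x w = true}), t,
    RegularWreathProduct.toPermInj _ _ _, ?_, ?_, wth_trans typ a hat htr, ?_, ?_, ?_, ?_, ?_, ?_⟩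
  · rw [Fintype.card_prod, Fintype.card_sum]
    rw [show Fintype.card M2 = 2 from rfl]
    rw [show Fintype.card (Multiplicative (ZMod k)) = Fintype.card (ZMod k) from
      Fintype.card_congr Multiplicative.toAdd, ZMod.card]
  · by_contra hne
    rw [not_nonempty_iff] at hne
    have h1 := Fintype.card_eq_zero (α := Word typ)
    omega
  · intro x y hxy
    rw [Bool.le_iff_imp, hBF, hBF]
    refine bigF_mono typ _ hdown ?_
    intro w hw
    have h3 := hxy w
    have hw' : x w = true := hw
    rw [hw'] at h3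
    exact top_le_iff.mp h3
  · rw [← Bool.not_eq_true, hBF]
    have : {w : Word typ | (fun _ : Word typ => false) w = true} = ∅ := by
      ext w; simp
    rw [this]
    exact bigF_empty typ _ hdown hfib
  · rw [hBF]
    have : {w : Word typ | (fun _ : Word typ => true) w = true} = Set.univ := by
      ext w; simp
    rw [this]
    exact bigF_univ typ _ hsurj hempty
  · intro γ x
    rw [Bool.eq_iff_iff, hBF, hBF]
    have himg : wth typ a hat γ '' {u | (x ∘ wth typ a hat γ) u = true} = {u | x u = true} := by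
      ext u
      constructor
      · rintro ⟨v, hv, rfl⟩
        exact hv
      · intro hu
        refine ⟨(wth typ a hat γ).symm u, ?_, Equiv.apply_symm_apply _ u⟩
        show x (wth typ a hat γ ((wth typ a hat γ).symm u)) = true
        rw [Equiv.apply_symm_apply]
        exact hu
    rw [← himg]
    exact (bigF_wth typ a hat S haS γ _).symm
  · intro x
    rw [Bool.eq_iff_iff, hBF]
    exact ht x
  · rw [Nat.card_eq_fintype_card]
    exact Nat.mul_le_mul_right _ (by omega)

end words

end Pool.Agent.H684.EV
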